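import Pool.Agent.Lib.MP_b5021c_nt.IfaceE3
import Pool.Agent.Lib.MP_b5021c_nt.B.H71.I1c

/-!
# Board b5, stage 3, row E3_QV (helper47)
-/

namespace Pool.Agent.B5.H47

open scoped LaurentPolynomial
open AddMonoidAlgebra
open Pool.Agent.B5.H71

set_option linter.unusedSectionVars false

section Mev

variable {L : Type} [AddCommGroup L]

theorem qv_mev_add {ι : Type} [Fintype ι] (u : AddChar L Circle) (mu : ι → L →+ ℤ) (t : ι → ℂ)
    (p q : CA L) : mev u mu t (p + q) = mev u mu t p + mev u mu t q := by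
  unfold mev
  rw [coeff_add, Finsupp.sum_add_index']
  · intro a; simp
  · intro a b c; rw [add_mul, add_mul]

theorem qv_mev_single {ι : Type} [Fintype ι] (u : AddChar L Circle) (mu : ι → L →+ ℤ) (t : ι → ℂ)
    (a : L) (c : ℂ) : mev u mu t (single a c) = c * (u a : ℂ) * ∏ i, t i ^ (mu i a).toNat := by
  unfold mev
  rw [coeff_single, Finsupp.sum_single_index (by simp)]

theorem qv_mev_em (k1 : L →+ ℤ) (k2 : Ker k1 →+ ℤ) (lam : Ker k2 →+ ℤ) (lam' : L →+ ℤ)
    (hl : ∀ a : Ker k2, lam' ((a : Ker k1) : L) = lam a) (u : AddChar (Ker k2) Circle)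
    (u' : AddChar L Circle) (hu : ∀ a : Ker k2, u' ((a : Ker k1) : L) = u a) (s t : ℂ)
    (F : CA (Ker k2)) :
    mev u' ![lam', k1] ![s, t] (em (Ker k1) (em (Ker k2) F)) = (sl u lam F).eval s := by
  induction F using AddMonoidAlgebra.induction_linear with
  | zero => simp [mev, sl]
  | add f g hf hg => rw [map_add, map_add, qv_mev_add, hf, hg, sl_add, Polynomial.eval_add]
  | single a c =>
    rw [em_single, em_single, qv_mev_single, sl_single, hu, Fin.prod_univ_two]
    have h0 : k1 ((a : Ker k1) : L) = 0 := (a : Ker k1).2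
    simp [hl, h0]

theorem qv_mev_shift (k1 : L →+ ℤ) (S : L) (h : k1 S = 1) (k2 : Ker k1 →+ ℤ)
    (lam : Ker k2 →+ ℤ) (lam' : L →+ ℤ) (hS : lam' S = 0)
    (hl : ∀ a : Ker k2, lam' ((a : Ker k1) : L) = lam a) (u : AddChar (Ker k2) Circle)
    (u' : AddChar L Circle) (hu : ∀ a : Ker k2, u' ((a : Ker k1) : L) = u a) (huS : u' S = 1)
    (s t : ℂ) (F : CA (Ker k2)) :
    mev u' ![lam', k1] ![s, t] (single S 1 * em (Ker k1) (em (Ker k2) F)) =
      t * (sl u lam F).eval s := by
  induction F using AddMonoidAlgebra.induction_linear with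
  | zero => simp [mev, sl]
  | add f g hf hg =>
    rw [map_add, map_add, mul_add, qv_mev_add, hf, hg, sl_add, Polynomial.eval_add, mul_add]
  | single a c =>
    rw [em_single, em_single, single_mul_single, one_mul, qv_mev_single, sl_single,
      AddChar.map_add_eq_mul, hu, huS, one_mul, Fin.prod_univ_two]
    have h0 : k1 ((a : Ker k1) : L) = 0 := (a : Ker k1).2
    simp [hl, h0, hS, h]
    ring

end Mev

section Core

variable {O : Type} [CommRing O] [IsDomain O] [IsPrincipalIdealRing O] [Coef O] {L : Type}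
  [AddCommGroup L]

/-- The part of `D` of degree zero in `kj`. -/
theorem qv_part (k1 kj : L →+ ℤ) (S : L) (h : k1 S = 1) (hjS : kj S = 0) (k2 : Ker k1 →+ ℤ)
    (hk2 : ∀ a : Ker k1, k2 a = kj (a : L)) (D : AO O L)
    (hD : ∀ a ∈ supp D, k1 a = 0 ∨ k1 a = 1) :
    gpart kj 0 D = em (Ker k1) (em (Ker k2) (res (Ker k2) (res (Ker k1) D))) +
      single S 1 * em (Ker k1) (em (Ker k2) (res (Ker k2) (res (Ker k1) (single (-S) 1 * D)))) := by
  have hem : ∀ (F : AO O L) (a : L), (em (Ker k1) (em (Ker k2) (res (Ker k2) (res (Ker k1) F)))).coeff a =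
      if k1 a = 0 ∧ kj a = 0 then F.coeff a else 0 := by
    intro F a
    by_cases h1 : k1 a = 0
    · have e1 := em_coeff (Ker k1) (em (Ker k2) (res (Ker k2) (res (Ker k1) F))) ⟨a, h1⟩
      change (em (Ker k1) (em (Ker k2) (res (Ker k2) (res (Ker k1) F)))).coeff a = _ at e1
      rw [e1]
      by_cases h2 : kj a = 0
      · rw [if_pos ⟨h1, h2⟩]
        have h3 : k2 ⟨a, h1⟩ = 0 := by rw [hk2]; exact h2
        have e2 := em_coeff (Ker k2) (res (Ker k2) (res (Ker k1) F)) ⟨⟨a, h1⟩, h3⟩
        exact e2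
      · rw [if_neg (fun h3 => h2 h3.2)]
        apply em_coeff_not
        intro h3
        rw [mem_Ker, hk2] at h3
        exact h2 h3
    · rw [if_neg (fun h3 => h1 h3.1)]
      exact em_coeff_not _ _ _ h1
  apply AddMonoidAlgebra.ext
  apply Finsupp.ext
  intro a
  rw [coeff_add, Finsupp.add_apply, coeff_single_mul_apply, one_mul, hem, hem,
    coeff_single_mul_apply, one_mul, neg_neg, add_neg_cancel_left, map_add, map_add, map_neg,
    map_neg, h, hjS, neg_zero, zero_add]
  change (D.coeff.filter fun a => kj a = 0) a = _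
  by_cases h2 : kj a = 0
  · rw [Finsupp.filter_apply_pos (fun a => kj a = 0) _ h2]
    by_cases hz : D.coeff a = 0
    · simp [hz]
    · rcases hD a hz with h1 | h1
      · rw [if_pos ⟨h1, h2⟩, if_neg (by omega), add_zero]
      · rw [if_neg (by omega), if_pos ⟨by omega, h2⟩, zero_add]
  · rw [Finsupp.filter_apply_neg (fun a => kj a = 0) _ h2, if_neg (fun h3 => h2 h3.2), if_neg (fun h3 => h2 h3.2),
      add_zero]

theorem qv_core [Module.Free ℤ L] [Module.Finite ℤ L] (hF : FaceS) (hSt : StSpecS) (hMu : MultiS)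
    (k1 kj : L →+ ℤ) (S : L) (h : k1 S = 1) (hjS : kj S = 0) (k2 : Ker k1 →+ ℤ)
    (hk2 : ∀ a : Ker k1, k2 a = kj (a : L)) (b : Ker k1) (hj : k2 b = 1) (D : AO O L)
    (hD : ∀ a ∈ supp D, k1 a = 0 ∨ k1 a = 1) (hDj : Nn kj D) (hst : Stable D)
    (lam : Ker k2 →+ ℤ) (hX : Pos lam (res (Ker k2) (res (Ker k1) D)))
    (hY : ∀ a ∈ supp (res (Ker k2) (res (Ker k1) (single (-S) 1 * D))), 0 ≤ lam a)
    (z : Circle) (hz : evR z (D.coeff 0) ≠ 0) (u : AddChar (Ker k2) Circle) (s : ℂ) (hs : ‖s‖ < 1) :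
    ‖(sl u lam (spec z (res (Ker k2) (res (Ker k1) (single (-S) 1 * D))))).eval s‖ ≤
      ‖(sl u lam (spec z (res (Ker k2) (res (Ker k1) D)))).eval s‖ := by
  have hE := qv_part k1 kj S h hjS k2 hk2 D hD
  have hEst : Stable (gpart kj 0 D) := (hF O L D kj hst hDj).1
  have hE0 : (gpart kj 0 D).coeff 0 = D.coeff 0 :=
    Finsupp.filter_apply_pos (fun a => kj a = 0) _ (map_zero kj)
  have hEC : StableC (spec z (gpart kj 0 D)) := (hSt O L _).1 hEst z (by rw [hE0]; exact hz)
  set lam' : L →+ ℤ := lam.comp ((prj k2 b hj).comp (prj k1 S h)) with hlam'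
  set u' : AddChar L Circle := extc k1 S h (extc k2 b hj u 1) 1 with hu'
  have hl : ∀ a : Ker k2, lam' ((a : Ker k1) : L) = lam a := by
    intro a
    change lam (prj k2 b hj (prj k1 S h ((a : Ker k1) : L))) = lam a
    rw [prj_ker, prj_ker]
  have hlS : lam' S = 0 := by
    change lam (prj k2 b hj (prj k1 S h S)) = 0
    rw [prj_self, map_zero, map_zero]
  have hu : ∀ a : Ker k2, u' ((a : Ker k1) : L) = u a := by
    intro a
    rw [hu', extc_ker, extc_ker]
  have huS : u' S = 1 := extc_self _ _ _ _ _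
  -- the support of `gpart kj 0 D`
  have hsupp : ∀ a ∈ (spec z (gpart kj 0 D)).coeff.support, D.coeff a ≠ 0 ∧ kj a = 0 := by
    intro a ha
    rw [Finsupp.mem_support_iff, spec_coeff] at ha
    have h1 : (gpart kj 0 D).coeff a ≠ 0 := by
      intro h2
      rw [h2, map_zero] at ha
      exact ha rfl
    have h2 : kj a = 0 := by
      by_contra h3
      exact h1 (Finsupp.filter_apply_neg (fun a => kj a = 0) _ h3)
    refine ⟨?_, h2⟩
    have h3 : (gpart kj 0 D).coeff a = D.coeff a :=
      Finsupp.filter_apply_pos (fun a => kj a = 0) _ h2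
    rw [← h3]
    exact h1
  have hcase : ∀ a, D.coeff a ≠ 0 → kj a = 0 → (k1 a = 0 ∧ (a ≠ 0 → 0 < lam' a)) ∨
      (k1 a = 1 ∧ 0 ≤ lam' a) := by
    intro a ha haj
    rcases hD a ha with h1 | h1
    · left
      refine ⟨h1, fun ha0 => ?_⟩
      have h3 : k2 ⟨a, h1⟩ = 0 := by rw [hk2]; exact haj
      have h4 := hl ⟨⟨a, h1⟩, h3⟩
      change lam' a = _ at h4
      rw [h4]
      apply hX
      · rw [Finsupp.mem_support_iff]
        exact ha
      · intro h5
        apply ha0
        have h6 := congrArg (fun x : Ker k2 => ((x : Ker k1) : L)) h5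
        exact h6
    · right
      refine ⟨h1, ?_⟩
      have h2 : k1 (-S + a) = 0 := by rw [map_add, map_neg, h, h1]; rfl
      have h3 : k2 ⟨-S + a, h2⟩ = 0 := by
        rw [hk2]
        change kj (-S + a) = 0
        rw [map_add, map_neg, hjS, haj]; rfl
      have h4 := hl ⟨⟨-S + a, h2⟩, h3⟩
      change lam' (-S + a) = _ at h4
      rw [map_add, map_neg, hlS, neg_zero, zero_add] at h4
      rw [h4]
      apply hY
      change (single (-S) 1 * D).coeff (-S + a) ≠ 0
      rw [coeff_single_mul_apply, one_mul, neg_neg, add_neg_cancel_left]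
      exact ha
  by_contra hcon
  rw [not_le] at hcon
  set x := (sl u lam (spec z (res (Ker k2) (res (Ker k1) D)))).eval s with hx
  set y := (sl u lam (spec z (res (Ker k2) (res (Ker k1) (single (-S) 1 * D))))).eval s with hy
  have hy0 : y ≠ 0 := by
    intro h1
    rw [h1, norm_zero] at hcon
    exact absurd hcon (not_lt.mpr (norm_nonneg _))
  have ht : ‖-(x / y)‖ < 1 := by
    rw [norm_neg, norm_div, div_lt_one (norm_pos_iff.mpr hy0)]
    exact hcon
  have hne := hMu L (spec z (gpart kj 0 D)) hEC (Fin 2) ![lam', k1] (by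
    intro i a ha
    obtain ⟨h1, h2⟩ := hsupp a ha
    have h3 := hcase a h1 h2
    fin_cases i
    · change 0 ≤ lam' a
      rcases h3 with ⟨_, h4⟩ | ⟨_, h4⟩
      · by_cases h5 : a = 0
        · rw [h5, map_zero]
        · exact (h4 h5).le
      · exact h4
    · change 0 ≤ k1 a
      rcases h3 with ⟨h4, _⟩ | ⟨h4, _⟩ <;> rw [h4]
      exact zero_le_one) (by
    intro a ha h0
    obtain ⟨h1, h2⟩ := hsupp a ha
    have h3 := hcase a h1 h2
    rw [Fin.sum_univ_two]
    change 0 < lam' a + k1 a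
    rcases h3 with ⟨h4, h5⟩ | ⟨h4, h5⟩
    · have := h5 h0
      omega
    · omega) u' ![s, -(x / y)] (by
    intro i
    fin_cases i
    · exact hs
    · exact ht)
  apply hne
  rw [hE, map_add, qv_mev_add, map_mul, spec_single, map_one, spec_em, spec_em, spec_em, spec_em,
    qv_mev_em k1 k2 lam lam' hl u u' hu, qv_mev_shift k1 S h k2 lam lam' hlS hl u u' hu huS,
    ← hx, ← hy]
  field_simp
  ring

end Core

section Main

variable {O : Type} [CommRing O] [IsDomain O] [IsPrincipalIdealRing O] [Coef O] {P : Type}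
  [Fintype P] [DecidableEq P] {L : Type} [AddCommGroup L] [Module.Free ℤ L] [Module.Finite ℤ L]

/-- The closed element without the port `j`. -/
theorem qv_V {phi : L →+ (P → ℤ)} {D : AO O L} {S : L} {i0 : P} {eta : (RO O)ˣ}
    {h : co phi i0 S = 1} {c : RO O} {n : ℕ} {G : Fin n → AO O (Ker (co phi i0))} {l : Fin n}
    {b : Ker (co phi i0)} {j : P} {e : (RO O)ˣ} (hj : co (phK phi (co phi i0)) j b = 1)
    (fd : FD phi D S i0 eta h c n G) (sp : Spt phi S i0 G l b j e) :
    cst (c * (G l).coeff 0) * Uo phi i0 j G l =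
      Xo phi D i0 j + cst (eta : RO O) *
        res (Ker (co (phK phi (co phi i0)) j)) (res (Ker (co phi i0)) (single (-S) 1 * D)) := by
  classical
  set k2 := co (phK phi (co phi i0)) j with hk2
  have hdec := decomp (co phi i0) S h D (fun a ha => fd.cc.dd.bin a ha i0)
  have hV : cl (co phi i0) S h eta D = res (Ker (co phi i0)) D +
      cst (eta : RO O) * res (Ker (co phi i0)) (single (-S) 1 * D) := by
    conv_lhs => rw [hdec]
    rw [map_add, map_mul, cl_em, cl_em, cl_single, prj_self, h, zpow_one, one_mul]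
    rfl
  -- the factorisation
  have hU : ∏ i ∈ Finset.univ.erase l, G i = em (Ker k2) (Uo phi i0 j G l) := by
    unfold Uo
    rw [map_prod]
    apply Finset.prod_congr rfl
    intro i hi
    rw [em_res]
    exact oth l b j e sp i (Finset.ne_of_mem_erase hi)
  have hV2 : cl (co phi i0) S h eta D =
      em (Ker k2) (cst (c * (G l).coeff 0) * Uo phi i0 j G l) -
        single b ((e⁻¹ : (RO O)ˣ) : RO O) *
          em (Ker k2) (cst (c * (G l).coeff 0) * Uo phi i0 j G l) := by
    rw [fd.eq, ← Finset.mul_prod_erase Finset.univ G (Finset.mem_univ l), hU, map_mul, em_cst,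
      cst_mul]
    conv_lhs => rw [sp.eq]
    ring
  apply AddMonoidAlgebra.ext
  apply Finsupp.ext
  intro a
  have h1 := congrArg (fun F : AO O (Ker (co phi i0)) => F.coeff (a : Ker (co phi i0))) (hV2.symm.trans hV)
  simp only [coeff_sub, coeff_add, Finsupp.sub_apply, Finsupp.add_apply] at h1
  rw [coeff_single_mul_apply, em_coeff, em_coeff_not, mul_zero, sub_zero, cst_mul_coeff] at h1
  · rw [coeff_add, Finsupp.add_apply, cst_mul_coeff, cst_mul_coeff, h1, cst_mul_coeff]
    rfl
  · intro h2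
    have h3 : k2 (a : Ker (co phi i0)) = 0 := a.2
    rw [mem_Ker, map_add, map_neg, h3, hj] at h2
    omega

theorem qv3 (h1 : E2S) (h2 : PrimS) (h3 : B3S) (h4 : FaceS) (h5 : StSpecS) (h6 : MultiS)
    (h8 : EvRS) (h9 : FullS) : Qv3S := by
  intro O _ _ _ _ P L _ _ _ _ _ phi D S i0 eta h c n G l b j e hj q qc
  have fd := qc.fd
  have sp := qc.sp
  obtain ⟨hSD, hS0, lam, hS, hp⟩ := fd.cc.ray
  have hposV := pos_cl (co phi i0) S h eta D lam hS hp
  have hG : ∀ i, FullAt (lam.comp (incl (Ker (co phi i0)))) (G i) := fun i =>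
    fd.full i _ hposV
  have hFU := full_U h9 l b j e sp hj _ hG
  have hPU := prim_U h2 l b j e sp fd.irr fd.wd
  have hUst : Stable (Uo phi i0 j G l) := (h9 O _ _ 1 _).1 hFU
  have hU0 : ∀ z : Circle, evR z ((Uo phi i0 j G l).coeff 0) ≠ 0 := h3 O _ _ hUst hPU
  have hD0 : ∀ z : Circle, evR z (D.coeff 0) ≠ 0 := (h1 O P L phi D fd.cc.dd fd.cc.two).1
  refine ⟨⟨_, ?_, hFU.2.1⟩, hU0, ?_⟩
  · intro a ha ha0
    have h9 : (Xo phi D i0 j).coeff a ≠ 0 := Finsupp.mem_support_iff.mp ha
    have h10 : D.coeff ((a : Ker (co phi i0)) : L) ≠ 0 := h9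
    apply hp _ h10
    · intro h11
      apply ha0
      apply Subtype.ext
      apply Subtype.ext
      exact h11
    · intro h11
      have h12 : co phi i0 ((a : Ker (co phi i0)) : L) = 0 := (a : Ker (co phi i0)).2
      have h13 : ((a : Ker (co phi i0)) : L) = S := h11
      rw [h13, h] at h12
      exact one_ne_zero h12
  · intro lam1 hX1 hU1 z u s hs
    refine ⟨(h5 O _ _).2.2 hUst lam1 hU1 z (hU0 z) u s hs, ?_⟩
    have hV := qv_V (D := D) hj fd sp
    have hjS : co phi j S = 0 := (Finset.mem_filter.mp sp.jO).2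
    have hbin1 : ∀ a ∈ supp D, co phi i0 a = 0 ∨ co phi i0 a = 1 :=
      fun a ha => fd.cc.dd.bin a ha i0
    have hNnj : Nn (co phi j) D := by
      intro a ha
      rcases fd.cc.dd.bin a (Finsupp.mem_support_iff.mp ha) j with h10 | h10
      · exact h10.ge
      · change 0 ≤ phi a j
        rw [h10]
        exact zero_le_one
    set Y := res (Ker (co (phK phi (co phi i0)) j))
      (res (Ker (co phi i0)) (single (-S) 1 * D)) with hYdef
    have hg0 : c * (G l).coeff 0 ≠ 0 := mul_ne_zero fd.c0 (fd.st l).1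
    have hYn : ∀ a ∈ supp Y, 0 ≤ lam1 a := by
      intro a ha
      by_cases ha0 : a = 0
      · rw [ha0, map_zero]
      have h10 := congrArg (fun F => AddMonoidAlgebra.coeff F a) hV
      simp only [coeff_add, Finsupp.add_apply, cst_mul_coeff] at h10
      by_cases h11 : (Uo phi i0 j G l).coeff a = 0
      · have h12 : (Xo phi D i0 j).coeff a ≠ 0 := by
          intro h13
          rw [h11, h13, mul_zero, zero_add] at h10
          rcases mul_eq_zero.mp h10.symm with h14 | h14
          · exact eta.ne_zero h14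
          · exact ha h14
        exact (hX1 a (Finsupp.mem_support_iff.mpr h12) ha0).le
      · exact (hU1 a (Finsupp.mem_support_iff.mpr h11) ha0).le
    have hle := qv_core h4 h5 h6 (co phi i0) (co phi j) S h hjS (co (phK phi (co phi i0)) j)
      (fun a => rfl) b hj D hbin1 hNnj fd.cc.dd.st lam1 hX1 hYn z (hD0 z) u s hs
    have hsl : evR z (c * (G l).coeff 0) * (sl u lam1 (spec z (Uo phi i0 j G l))).eval s =
        (sl u lam1 (spec z (Xo phi D i0 j))).eval s +
          evR z (eta : RO O) * (sl u lam1 (spec z Y)).eval s := by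
      have hc : ∀ (d : RO O) (F : AO O (Ker (co (phK phi (co phi i0)) j))),
          (sl u lam1 (spec z (cst d * F))).eval s = evR z d * (sl u lam1 (spec z F)).eval s := by
        intro d F
        induction F using AddMonoidAlgebra.induction_linear with
        | zero => simp [sl]
        | add f g hf hg =>
          rw [mul_add, map_add, map_add, sl_add, sl_add, Polynomial.eval_add,
            Polynomial.eval_add, hf, hg, mul_add]
        | single a q =>
          rw [cst, single_mul_single, zero_add, spec_single, spec_single, sl_single, sl_single,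
            map_mul (evR z), Polynomial.eval_monomial, Polynomial.eval_monomial]
          ring
      rw [← hc, ← hc, hV, map_add, sl_add, Polynomial.eval_add]
    have he : ‖evR z (eta : RO O)‖ = 1 := (h8 O).2.1 z _ eta.isUnit
    rw [hsl]
    set x := (sl u lam1 (spec z (Xo phi D i0 j))).eval s with hx
    set y := (sl u lam1 (spec z Y)).eval s with hy
    have hle' : ‖y‖ ≤ ‖x‖ := hle
    have hny : ‖evR z (eta : RO O) * y‖ ≤ ‖x‖ := by rw [norm_mul, he, one_mul]; exact hle'
    generalize evR z (eta : RO O) * y = w at hny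
    have h20 : ‖w‖ ^ 2 ≤ ‖x‖ ^ 2 := pow_le_pow_left₀ (norm_nonneg _) hny 2
    have h21 : ‖x + w‖ ^ 2 = ‖x‖ ^ 2 + 2 * (x * (starRingEnd ℂ) w).re + ‖w‖ ^ 2 := by
      rw [← Complex.normSq_eq_norm_sq, ← Complex.normSq_eq_norm_sq, ← Complex.normSq_eq_norm_sq,
        Complex.normSq_add]
      ring
    have h22 : (x * (starRingEnd ℂ) (x + w)).re = ‖x‖ ^ 2 + (x * (starRingEnd ℂ) w).re := by
      rw [map_add, mul_add, Complex.mul_conj, Complex.add_re, Complex.ofReal_re,
        Complex.normSq_eq_norm_sq]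
    rw [h21, h22]
    linarith

end Main

end Pool.Agent.B5.H47
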